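import Pool.Agent.Lib.MP_ef4e97_co.Main

set_option autoImplicit false

namespace Pool.Agent.Results.MP_ef4e97_co.Cover

/-- Every large set of `N` reals is covered by `(4 (2/3)^(1/4) + ε) √N` Sidon sets. -/
theorem result :
    ∀ ε : ℝ, 0 < ε → ∃ N₀ : ℕ, ∀ A : Finset ℝ, N₀ ≤ A.card →
      ∃ k : ℕ, (k : ℝ) ≤ (4 * Real.sqrt (Real.sqrt (2 / 3)) + ε) * Real.sqrt (A.card : ℝ) ∧
        ∃ S : Fin k → Finset ℝ,
          (∀ i, ∀ a ∈ S i, ∀ b ∈ S i, ∀ c ∈ S i, ∀ d ∈ S i,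
              a + b = c + d → (a = c ∧ b = d) ∨ (a = d ∧ b = c)) ∧
          ∀ x ∈ A, ∃ i, x ∈ S i := by
  intro ε hε
  obtain ⟨N₀, h⟩ := Pool.Agent.Lib.MP_ef4e97_co.cover_bound hε
  refine ⟨N₀, fun A hA => ?_⟩
  obtain ⟨k, h1, F, f1, f2, f3⟩ := h A hA
  refine ⟨F.card, le_trans (by exact_mod_cast f1) h1, fun i => (F.equivFin.symm i).1,
    fun i => f2 _ (F.equivFin.symm i).2, fun x hx => ?_⟩
  obtain ⟨S, s1, s2⟩ := f3 x hx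
  exact ⟨F.equivFin ⟨S, s1⟩, by simpa using s2⟩

end Pool.Agent.Results.MP_ef4e97_co.Cover
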