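import Pool.Agent.Lib.MP_ef4e97_co.Dis9

set_option autoImplicit false

namespace Pool.Agent.Results.MP_ef4e97_co.NoLargeSidon

/-- For every large `N` some set of `N` reals has no Sidon subset larger than `0.95 √N`
and cannot be covered by fewer than `1.05 √N` Sidon sets. -/
theorem result : ∃ N₀ : ℕ, ∀ N : ℕ, N₀ ≤ N → ∃ A : Finset ℝ, A.card = N ∧
    (∀ S : Finset ℝ, S ⊆ A →
      (∀ a ∈ S, ∀ b ∈ S, ∀ c ∈ S, ∀ d ∈ S,
        a + b = c + d → (a = c ∧ b = d) ∨ (a = d ∧ b = c)) →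
      (S.card : ℝ) ≤ 95 / 100 * Real.sqrt N) ∧
    (∀ (k : ℕ) (S : Fin k → Finset ℝ),
      (∀ i, ∀ a ∈ S i, ∀ b ∈ S i, ∀ c ∈ S i, ∀ d ∈ S i,
        a + b = c + d → (a = c ∧ b = d) ∨ (a = d ∧ b = c)) →
      (∀ x ∈ A, ∃ i, x ∈ S i) → 105 / 100 * Real.sqrt N ≤ (k : ℝ)) := by
  classical
  refine ⟨450 * (10 ^ 12) ^ 120 + 1, fun N hN => ?_⟩
  have hex : ∃ M : ℕ, N ≤ 450 * M ^ 120 :=
    ⟨N, le_trans (Nat.le_self_pow (by norm_num) N) (Nat.le_mul_of_pos_left _ (by norm_num))⟩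
  obtain ⟨M, hM, hmin⟩ : ∃ M : ℕ, N ≤ 450 * M ^ 120 ∧ ∀ m < M, ¬ N ≤ 450 * m ^ 120 :=
    ⟨Nat.find hex, Nat.find_spec hex, fun m hm => Nat.find_min hex hm⟩
  have hM1 : 10 ^ 12 < M := by
    by_contra hc
    have := Nat.pow_le_pow_left (not_lt.1 hc) 120
    omega
  clear hN hex
  obtain ⟨m, rfl⟩ : ∃ m, M = m + 1 := ⟨M - 1, by omega⟩
  have hm : 450 * m ^ 120 < N := not_le.1 (hmin m (by omega))
  obtain ⟨A, hA1, -, hA3⟩ := Pool.Agent.Lib.SidonDis.exists_bad_set (m + 1) hM1.le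
  obtain ⟨B, hB1, hB2⟩ := Finset.exists_subset_card_eq (hM.trans hA1)
  have hinj : Function.Injective (fun a : ℤ => (a : ℝ)) := Int.cast_injective
  have hm0 : (10 : ℝ) ^ 12 ≤ m := by exact_mod_cast (by omega : 10 ^ 12 ≤ m)
  have hmp : (0 : ℝ) < m := lt_of_lt_of_le (by norm_num) hm0
  have hpow : ((m : ℝ) + 1) ^ 60 ≤ 1001 / 1000 * (m : ℝ) ^ 60 := by
    have e : (m : ℝ) + 1 = (1 + 1 / m) * m := by field_simp
    have h1 : 1 + 1 / (m : ℝ) ≤ 1 + 1 / 10 ^ 12 := by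
      have := one_div_le_one_div_of_le (by norm_num) hm0
      linarith
    have h2 : (1 + 1 / (m : ℝ)) ^ 60 ≤ (1 + 1 / 10 ^ 12) ^ 60 :=
      pow_le_pow_left₀ (add_nonneg zero_le_one (one_div_pos.2 hmp).le) h1 60
    have h3 : ((1 : ℝ) + 1 / 10 ^ 12) ^ 60 ≤ 1001 / 1000 := by norm_num
    rw [e, mul_pow]
    exact mul_le_mul_of_nonneg_right (h2.trans h3) (pow_nonneg hmp.le _)
  have hsq : 2121 / 100 * (m : ℝ) ^ 60 ≤ Real.sqrt N := by
    refine Real.le_sqrt_of_sq_le ?_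
    have h1 : 450 * (m : ℝ) ^ 120 ≤ N := by exact_mod_cast hm.le
    have h2 : (0 : ℝ) ≤ (m : ℝ) ^ 120 := pow_nonneg hmp.le _
    calc (2121 / 100 * (m : ℝ) ^ 60) ^ 2 = 4498641 / 10000 * (m : ℝ) ^ 120 := by ring
      _ ≤ _ := by linarith
  have key : ∀ S : Finset ℝ, (∀ a ∈ S, ∀ b ∈ S, ∀ c ∈ S, ∀ d ∈ S,
        a + b = c + d → (a = c ∧ b = d) ∨ (a = d ∧ b = c)) →
      ((B.filter (fun a : ℤ => (a : ℝ) ∈ S)).card : ℝ) ≤ 95 / 100 * Real.sqrt N := by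
    intro S hS
    have h1 := hA3 (B.filter (fun a : ℤ => (a : ℝ) ∈ S)) ((Finset.filter_subset _ _).trans hB1)
      (fun a ha b hb c hc d hd e => by
        have := hS a (Finset.mem_filter.1 ha).2 b (Finset.mem_filter.1 hb).2
          c (Finset.mem_filter.1 hc).2 d (Finset.mem_filter.1 hd).2 (by exact_mod_cast e)
        exact_mod_cast this)
    have h2 : ((B.filter (fun a : ℤ => (a : ℝ) ∈ S)).card : ℝ) ≤ 20 * ((m : ℝ) + 1) ^ 60 := by
      exact_mod_cast h1.le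
    have h3 : (0 : ℝ) ≤ (m : ℝ) ^ 60 := pow_nonneg hmp.le _
    linarith
  refine ⟨B.image (fun a : ℤ => (a : ℝ)), by rw [Finset.card_image_of_injective _ hinj, hB2],
    fun S hSA hS => le_trans ?_ (key S hS), fun k S hS hcov => ?_⟩
  · have : S ⊆ (B.filter (fun a : ℤ => (a : ℝ) ∈ S)).image (fun a : ℤ => (a : ℝ)) := by
      intro x hx
      obtain ⟨a, ha, rfl⟩ := Finset.mem_image.1 (hSA hx)
      exact Finset.mem_image.2 ⟨a, Finset.mem_filter.2 ⟨ha, hx⟩, rfl⟩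
    exact_mod_cast (Finset.card_le_card this).trans Finset.card_image_le
  · have h2 : B ⊆ Finset.univ.biUnion (fun i => B.filter (fun a : ℤ => (a : ℝ) ∈ S i)) := by
      intro a ha
      obtain ⟨i, hi⟩ := hcov a (Finset.mem_image.2 ⟨a, ha, rfl⟩)
      exact Finset.mem_biUnion.2 ⟨i, Finset.mem_univ _, Finset.mem_filter.2 ⟨ha, hi⟩⟩
    have h3 := (Finset.card_le_card h2).trans Finset.card_biUnion_le
    rw [hB2] at h3
    have h4 : (N : ℝ) ≤ ∑ i, ((B.filter (fun a : ℤ => (a : ℝ) ∈ S i)).card : ℝ) := by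
      exact_mod_cast h3
    have h5 := Finset.sum_le_card_nsmul Finset.univ _ _ fun i _ => key (S i) (hS i)
    rw [Finset.card_univ, Fintype.card_fin, nsmul_eq_mul] at h5
    have h6 := Real.mul_self_sqrt (Nat.cast_nonneg (α := ℝ) N)
    have h7 : 0 < Real.sqrt (N : ℝ) := lt_of_lt_of_le (mul_pos (by norm_num) (pow_pos hmp _)) hsq
    generalize Real.sqrt (N : ℝ) = s at h5 h6 h7 ⊢
    have h8 : s * s ≤ s * (95 / 100 * k) := by linarith
    have h9 := le_of_mul_le_mul_left h8 h7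
    linarith

end Pool.Agent.Results.MP_ef4e97_co.NoLargeSidon
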