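import Pool.Agent.Lib.MP_ef4e97_co.Main

set_option autoImplicit false

namespace Pool.Agent.Results.MP_ef4e97_co.Subset

/-- Every large set of `N` reals has a Sidon subset of size `(2 / (3 √3) - ε) √N`. -/
theorem result :
    ∀ ε : ℝ, 0 < ε → ∃ N₀ : ℕ, ∀ A : Finset ℝ, N₀ ≤ A.card →
      ∃ S : Finset ℝ, S ⊆ A ∧
        (∀ a ∈ S, ∀ b ∈ S, ∀ c ∈ S, ∀ d ∈ S,
          a + b = c + d → (a = c ∧ b = d) ∨ (a = d ∧ b = c)) ∧
        (2 / (3 * Real.sqrt 3) - ε) * Real.sqrt (A.card : ℝ) ≤ (S.card : ℝ) :=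
  fun _ hε => Pool.Agent.Lib.MP_ef4e97_co.subset_bound hε

end Pool.Agent.Results.MP_ef4e97_co.Subset
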